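import Mathlib
import Pool.Agent.Results.MP_ed39a4_al.ThicknessAboveAnyFunction

/-!
# MP_164a7b_al: connection thickness far above `n + 2`, on arbitrarily long intervals of radii

For every function `f` there is a two-generated one-ended group `G` such that for every finite
generating set `S` there are arbitrarily large `n` with `th(m) > f(m)` for all `m` in `[n, f(n)]`.
-/

set_option autoImplicit false

namespace Pool.Agent.Results.MP_164a7b_al.ThickIntervals

open Pool.Agent.Helper376.DL (Ball ball_succ ball_mono ball_add ball_mono_succ cay_connected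
  dist_le_iff mem_ball_dist)
open Pool.Agent.Helper376.Lac (Joined Joined.mono Joined.trans Joined.single Joined.refine SG WG Box
  exists_scale SG_one SG_inv SG_finite finite_subset_box ball_fin ball_subset_ball ball_inv'
  box_connected box_finite WG_mono exists_decomp eta_WG ft_zpow_ball)
open Pool.Agent.Y36.LG
open Pool.Agent.Results.MP_ed39a4_al.ThicknessAboveAnyFunction (sy one_mem_sy sy_inv sy_gen
  wl_le_iff reach_of_joined joined_of_reach exists_l exists_level stay_out)
open Relation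
open scoped Pointwise

section defs

variable {G : Type} [Group G]

/-- The Cayley graph of `G` with respect to the finite set `S`: two distinct elements are adjacent
when they differ by right multiplication by an element of `S` or of its inverses. -/
def cayleyGraph (S : Finset G) : SimpleGraph G :=
  SimpleGraph.fromRel (fun a b : G => a⁻¹ * b ∈ S)

/-- Word length: distance to `1` in the Cayley graph. -/
noncomputable def wordLength (S : Finset G) (g : G) : ℕ := (cayleyGraph S).dist 1 g

/-- One-endedness: `G` is infinite and, for every finite set `F` of vertices, the Cayley graph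
with `F` removed has exactly one infinite connected component. -/
def OneEnded (S : Finset G) : Prop :=
  Infinite G ∧ ∀ F : Set G, F.Finite →
    ∃! C : ((cayleyGraph S).induce Fᶜ).ConnectedComponent, C.supp.Infinite

/-- The complement of the ball `B(n-1)`. -/
def outside (S : Finset G) (n : ℕ) : Set G := {g | n ≤ wordLength S g}

/-- Vertices of `S(n,r)^∞`: the elements of length at most `n + r` that lie in an infinite
component of the complement of `B(n-1)`. -/
def sphereInf (S : Finset G) (n r : ℕ) : Set G :=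
  {g | wordLength S g ≤ n + r ∧ ∃ h : g ∈ outside S n,
    (((cayleyGraph S).induce (outside S n)).connectedComponentMk ⟨g, h⟩).supp.Infinite}

/-- The connection thickness: the least `r` for which `S(n,r)^∞` is connected
(`⊤` if there were none). -/
noncomputable def thickness (S : Finset G) (n : ℕ) : ℕ∞ :=
  sInf {x : ℕ∞ | ∃ r : ℕ, x = r ∧ ((cayleyGraph S).induce (sphereInf S n r)).Connected}

end defs

section oneEnded

variable {F : ℕ → ℕ → ℕ} {S : Finset (GG F)}

theorem one_ended (hgen : Subgroup.closure (S : Set (GG F)) = ⊤) : OneEnded S := by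
  refine ⟨GG_infinite, ?_⟩
  intro A hA
  obtain ⟨l, _, hl1, _⟩ := exists_l hgen
  have hAfin : (A * Ball (sy S : Set (GG F)) l).Finite := hA.mul (ball_fin (sy S).finite_toSet l)
  obtain ⟨m, hm⟩ := finite_subset_box (a := (ga F)) (t := (gt F)) gen hAfin
  have hout : ∀ x, x ∉ Box (ga F) (gt F) m → ∀ v ∈ Ball (sy S : Set (GG F)) l, x * v ∈ Aᶜ := by
    intro x hx v hv hcon
    apply hx
    apply hm
    exact ⟨x * v, hcon, v⁻¹, ball_inv' sy_inv hv, by simp⟩
  have hone : ∀ k : ℕ, (1 : GG F) ∈ Ball (sy S : Set (GG F)) k := by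
    intro k
    exact ball_mono one_mem_sy (Nat.zero_le k) (rfl : (1 : GG F) ∈ Ball (sy S : Set (GG F)) 0)
  have hout' : ∀ x, x ∉ Box (ga F) (gt F) m → x ∈ Aᶜ := by
    intro x hx
    have := hout x hx 1 (hone l)
    rwa [mul_one] at this
  have hl' : 1 ≤ l := by assumption
  have hconn : ∀ x y, x ∉ Box (ga F) (gt F) m → y ∉ Box (ga F) (gt F) m →
      Joined (sy S : Set (GG F)) Aᶜ x y := by
    intro x y hx hy
    have h1 := box_connected (eta F) eta_ga eta_gt gen WG_finite lamp_inj m x y hx hy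
    refine Joined.refine (X := (Box (ga F) (gt F) m)ᶜ) one_mem_sy hl1 ?_ h1
    intro z hz v hv
    exact hout z hz v hv
  have := GG_infinite (F := F)
  have hinf : ((Box (ga F) (gt F) m)ᶜ : Set (GG F)).Infinite := (box_finite WG_finite m).infinite_compl
  obtain ⟨x₀, hx₀⟩ := hinf.nonempty
  refine ⟨((cayleyGraph S).induce Aᶜ).connectedComponentMk ⟨x₀, hout' x₀ hx₀⟩, ?_, ?_⟩
  · intro hfin
    apply hinf
    refine (hfin.image Subtype.val).subset ?_
    intro x hx
    refine ⟨⟨x, hout' x hx⟩, ?_, rfl⟩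
    rw [SimpleGraph.ConnectedComponent.mem_supp_iff, SimpleGraph.ConnectedComponent.eq]
    exact reach_of_joined (hconn x x₀ hx hx₀) _ _
  · intro C hC
    obtain ⟨x, hx, hxB⟩ : ∃ x : (Aᶜ : Set (GG F)), x ∈ C.supp ∧ (x : (GG F)) ∉ Box (ga F) (gt F) m := by
      by_contra hcon
      push Not at hcon
      apply hC
      apply Set.Finite.of_finite_image (f := Subtype.val)
      · refine (box_finite WG_finite m).subset ?_
        rintro _ ⟨x, hx, rfl⟩
        exact hcon x hx
      · exact Subtype.val_injective.injOn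
    rw [SimpleGraph.ConnectedComponent.mem_supp_iff] at hx
    rw [← hx, SimpleGraph.ConnectedComponent.eq]
    exact reach_of_joined (hconn x x₀ hxB hx₀) _ _

end oneEnded

/-- The growth function of the construction. -/
def FF (f : ℕ → ℕ) (i r : ℕ) : ℕ :=
  (Finset.range (i + 1)).sup (fun l =>
    (Finset.range (f (l * (r + l + 1) + i) + 1)).sup (fun n =>
      2 * (l * (n + f n + l * (l * (n + l))) + l) + 1 + r))

section final

variable {f : ℕ → ℕ} {S : Finset (GG (FF f))}

/-- The spheres are far from connected. -/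
theorem not_connected (hgen : Subgroup.closure (S : Set (GG (FF f))) = ⊤) (N : ℕ) :
    ∃ n₀ : ℕ, N ≤ n₀ ∧ ∀ n : ℕ, n₀ ≤ n → n ≤ f n₀ → ∀ r ≤ f n,
      ¬ ((cayleyGraph S).induce (sphereInf S n r)).Preconnected := by
  obtain ⟨l, hl, hl1, hl2⟩ := exists_l hgen
  obtain ⟨i, hi⟩ : ∃ i, i = l + N := ⟨_, rfl⟩
  obtain ⟨d, hd⟩ : ∃ d, d = (St (FF f) i).rad := ⟨_, rfl⟩
  obtain ⟨n₀, hn₀⟩ : ∃ n₀, n₀ = l * (d + l + 1) + i := ⟨_, rfl⟩
  refine ⟨n₀, by omega, fun n hn hnf r hr hcon => ?_⟩
  obtain ⟨R, hR⟩ : ∃ R, R = f n := ⟨_, rfl⟩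
  obtain ⟨J, hJ⟩ : ∃ J, J = l * (n + l) := ⟨_, rfl⟩
  obtain ⟨M, hM⟩ : ∃ M, M = n + R + l * J := ⟨_, rfl⟩
  obtain ⟨Rb, hRb⟩ : ∃ Rb, Rb = l * M + l := ⟨_, rfl⟩
  have hbig : 2 * Rb + 1 + d ≤ Rd (FF f) i := by
    refine le_trans ?_ (Rd_big i)
    rw [← hd]
    have h1 : 2 * Rb + 1 + d ≤ FF f i d := by
      unfold FF
      have h2 : l ∈ Finset.range (i + 1) := by rw [Finset.mem_range]; omega
      have h3 : n ∈ Finset.range (f (l * (d + l + 1) + i) + 1) := by
        rw [Finset.mem_range, ← hn₀]; omega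
      refine le_trans ?_ (Finset.le_sup (f := fun l =>
        (Finset.range (f (l * (d + l + 1) + i) + 1)).sup (fun n =>
          2 * (l * (n + f n + l * (l * (n + l))) + l) + 1 + d)) h2)
      refine le_trans (le_of_eq ?_) (Finset.le_sup (f := fun n =>
          2 * (l * (n + f n + l * (l * (n + l))) + l) + 1 + d) h3)
      rw [hRb, hM, hJ, hR]
    unfold big
    omega
  rw [← hR] at hr
  obtain ⟨x, hx, hxj⟩ := exists_level hgen (n := n) hl1 hl2 hl 1 (Or.inl rfl)
  obtain ⟨y, hy, hyj⟩ := exists_level hgen (n := n) hl1 hl2 hl (-1) (Or.inr rfl)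
  rw [← hJ] at hxj hyj
  have hxy := joined_of_reach (hcon ⟨x, hx r⟩ ⟨y, hy r⟩)
  have hpath : Joined (sy S : Set (GG (FF f))) {g | n ≤ wordLength S g ∧ wordLength S g ≤ M}
      ((gt (FF f)) ^ (J : ℤ)) ((gt (FF f)) ^ (-(J : ℤ))) := by
    rw [one_mul] at hxj
    rw [neg_one_mul] at hyj
    refine ((Pool.Agent.Helper376.Lac.Joined.symm sy_inv (hxj.mono ?_)).trans
      (hxy.mono ?_)).trans (hyj.mono ?_)
    · rintro g ⟨h1, h2⟩
      refine ⟨h1, ?_⟩
      have h2' : wordLength S g ≤ l * J := h2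
      omega
    · rintro g ⟨h1, h2, _⟩
      refine ⟨h2, ?_⟩
      have h1' : wordLength S g ≤ n + r := h1
      omega
    · rintro g ⟨h1, h2⟩
      refine ⟨h1, ?_⟩
      have h2' : wordLength S g ≤ l * J := h2
      omega
  have hJ1 : 1 ≤ J := by rw [hJ]; exact Nat.mul_pos (by omega) (by omega)
  have hlJ : J ≤ l * J := Nat.le_mul_of_pos_left _ (by omega)
  have hlM : M ≤ l * M := Nat.le_mul_of_pos_left _ (by omega)
  refine separation (i := i) (Rb := Rb) (J := J)
    (X := {g | g ∈ Ball (SG (ga (FF f)) (gt (FF f))) Rb ∧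
      g ∉ Ball (SG (ga (FF f)) (gt (FF f))) (St (FF f) i).rad}) hJ1 (by omega)
    (by omega) (by omega) (fun g hg => hg.1) (fun g hg => hg.2) ?_
  refine Joined.refine (X := {g | n ≤ wordLength S g ∧ wordLength S g ≤ M}) SG_one hl2 ?_ hpath
  rintro z ⟨hz1, hz2⟩ v hv
  constructor
  · rw [hRb]
    exact ball_add (ball_subset_ball hl2 ((wl_le_iff hgen).1 hz2)) hv
  · intro hcon2
    rw [← hd] at hcon2
    have h1 : z * v * v⁻¹ ∈ Ball (SG (ga (FF f)) (gt (FF f))) (d + l) :=
      ball_add hcon2 (ball_inv' (fun _ h => SG_inv h) hv)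
    rw [mul_inv_cancel_right] at h1
    have h2 := (wl_le_iff hgen).2 (ball_subset_ball hl1 h1)
    have h3 : l * (d + l) < l * (d + l + 1) := Nat.mul_lt_mul_of_pos_left (by omega) (by omega)
    have h2' : wordLength S z ≤ l * (d + l) := h2
    omega

theorem thickness_gt (hgen : Subgroup.closure (S : Set (GG (FF f))) = ⊤) (N : ℕ) :
    ∃ n₀ : ℕ, N ≤ n₀ ∧ ∀ n : ℕ, n₀ ≤ n → n ≤ f n₀ → (f n : ℕ∞) < thickness S n := by
  obtain ⟨n₀, hnN, hn₀⟩ := not_connected hgen N
  refine ⟨n₀, hnN, fun n hn1 hn2 => ?_⟩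
  have hn := hn₀ n hn1 hn2
  by_contra hcon
  push Not at hcon
  unfold thickness at hcon
  have h2 : sInf {x : ℕ∞ | ∃ r : ℕ, x = r ∧
      ((cayleyGraph S).induce (sphereInf S n r)).Connected} < (f n + 1 : ℕ) :=
    lt_of_le_of_lt hcon (by exact_mod_cast Nat.lt_succ_self (f n))
  obtain ⟨x, ⟨r, rfl, hr⟩, hlt⟩ := sInf_lt_iff.1 h2
  have h3 : r < f n + 1 := by exact_mod_cast hlt
  exact hn r (by omega) hr.preconnected

end final

/-- For every function `f` there is a group `G` generated by two elements which is one-ended with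
respect to every finite generating set, and such that for every finite generating set `S` of `G`
there are arbitrarily large `n` with `th(m) > f(m)` and `th(m) > m + 2` for all `m` with
`n ≤ m ≤ max (n + 1) (f n)`. -/
theorem result (f : ℕ → ℕ) : ∃ (G : Type) (_ : Group G),
    (∃ a t : G, Subgroup.closure {a, t} = ⊤) ∧
    (∀ S : Finset G, Subgroup.closure (S : Set G) = ⊤ → OneEnded S) ∧
    ∀ S : Finset G, Subgroup.closure (S : Set G) = ⊤ →
      ∀ N : ℕ, ∃ n : ℕ, N ≤ n ∧ ∀ m : ℕ, n ≤ m → m ≤ max (n + 1) (f n) →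
        (f m : ℕ∞) < thickness S m ∧ ((m + 2 : ℕ) : ℕ∞) < thickness S m := by
  obtain ⟨f', hf'⟩ : ∃ f' : ℕ → ℕ, ∀ n, f' n = max (f n) (n + 2) := ⟨_, fun _ => rfl⟩
  refine ⟨GG (FF f'), inferInstance, ⟨ga (FF f'), gt (FF f'), gen⟩, fun S hS => one_ended hS, ?_⟩
  intro S hS N
  obtain ⟨n, hn, h⟩ := thickness_gt hS N
  refine ⟨n, hn, fun m hm1 hm2 => ?_⟩
  have h1 := h m hm1 (by
    rw [hf']
    rcases le_max_iff.1 hm2 with h2 | h2
    · exact le_trans (by omega) (le_max_right _ _)
    · exact le_trans h2 (le_max_left _ _))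
  rw [hf'] at h1
  constructor
  · refine lt_of_le_of_lt ?_ h1
    exact_mod_cast le_max_left _ _
  · refine lt_of_le_of_lt ?_ h1
    exact_mod_cast le_max_right _ _

end Pool.Agent.Results.MP_164a7b_al.ThickIntervals
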